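import Pool.Agent.H38.CUBE.JJStmts

/-!
# MP_47888e_al, block JJ, module LIN
-/

set_option autoImplicit false

open Polynomial

namespace Pool.CUBE

open Pool.CM Pool.H93.Cube

namespace J_LIN

theorem supp_smul {n : ℕ} {E : Type} [Field E] (x : F3 E) (hx : x ≠ 0)
    (g : MvPolynomial (Fin (n + 1)) (F3 E)) : (x • g).support = g.support := by
  ext a
  rw [MvPolynomial.mem_support_iff, MvPolynomial.mem_support_iff, MvPolynomial.coeff_smul,
    smul_eq_mul]
  exact not_congr (IsUnit.mk0 x hx).mul_right_eq_zero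

end J_LIN

theorem lin_thm : Corner.LINStmt := by
  intro n E _ K j x g
  by_cases hx : x = 0
  · subst hx
    rw [zero_smul, map_zero, map_zero, zero_mul]
  · change ∑ a ∈ (x • g).support, ex3 E ((x • g).coeff a) * K.del j a =
      ex3 E x * ∑ a ∈ g.support, ex3 E (g.coeff a) * K.del j a
    rw [J_LIN.supp_smul x hx g, Finset.mul_sum]
    refine Finset.sum_congr rfl fun a _ => ?_
    rw [MvPolynomial.coeff_smul, smul_eq_mul, map_mul, mul_assoc]

end Pool.CUBE
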