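import Pool.Agent.H38.CUBE.JJStmts

/-!
# MP_47888e_al, block JJ, module SIG
-/

set_option autoImplicit false

open Polynomial

namespace Pool.CUBE

open Pool.CM Pool.H93.Cube

namespace J_SIG

variable {n : ℕ} {E : Type} [Field E]

theorem io_pow (ios : IOSStmt) [CharZero E] (k : ℕ) (g : MvPolynomial (Fin (n + 1)) E) :
    Io (SigP n E ^ k * g) = Io g := by
  induction k with
  | zero => rw [pow_zero, one_mul]
  | succ k ih =>
    rw [pow_succ', mul_assoc, (ios n E (SigP n E ^ k * g)).1, ih]

theorem sum_cpt (m : ℕ) :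
    ∑ i : Fin m, (cpt E n i - cpt E n (i + 1)) = cpt E n 0 - cpt E n m := by
  rw [Fin.sum_univ_eq_sum_range (fun i => cpt E n i - cpt E n (i + 1)) m]
  exact Finset.sum_range_sub' (fun i => cpt E n i) m

theorem zc_sig : zc (SigP n E) = 1 := by
  unfold zc SigP
  rw [map_sum]
  simp only [MvPolynomial.aeval_X]
  rw [sum_cpt (n := n) (E := E) (n + 1)]
  have h0 : cpt E n 0 = 1 := by rw [cpt, if_pos rfl]
  have h1 : cpt E n (n + 1) = 0 := by
    rw [cpt, if_neg (Nat.succ_ne_zero n), dif_neg (by omega)]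
  rw [h0, h1, sub_zero]

theorem affP_affP (v : E) (g : E[X]) : affP 1 1 (affP 1 v g) = affP 1 (1 + v) g := by
  have h : (affP (1 : E) 1).comp (affP 1 v) = affP 1 (1 + v) := by
    refine Polynomial.ringHom_ext (fun a => ?_) ?_
    · simp [affP]
    · simp [affP]
      ring
  rw [← h]
  rfl

theorem affR_algebraMap (u v : E) (hu : u ≠ 0) (g : E[X]) :
    affR u v hu (algebraMap E[X] (RatFunc E) g) = algebraMap E[X] (RatFunc E) (affP u v g) := by
  have h := RatFunc.map_apply_div (affP u v) (affP_le u v hu) g 1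
  rw [map_one, map_one, map_one, div_one, div_one] at h
  exact h

theorem affR_affR (v : E) (r : RatFunc E) :
    affR 1 1 one_ne_zero (affR 1 v one_ne_zero r) = affR 1 (1 + v) one_ne_zero r := by
  have h := RatFunc.num_div_denom r
  rw [← h, map_div₀, map_div₀, map_div₀, affR_algebraMap, affR_algebraMap, affR_algebraMap,
    affR_algebraMap, affR_algebraMap, affR_algebraMap, affP_affP, affP_affP]

theorem fact_binR [CharZero E] (k : ℕ) :
    ((k.factorial : ℕ) : RatFunc E) * binR E k = algebraMap E[X] (RatFunc E) (descPochhammer E k) := by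
  have hk : ((k.factorial : ℕ) : E) ≠ 0 := Nat.cast_ne_zero.2 (Nat.factorial_ne_zero _)
  have h1 : ((k.factorial : ℕ) : RatFunc E) =
      algebraMap E[X] (RatFunc E) (Polynomial.C ((k.factorial : ℕ) : E)) := by
    rw [Polynomial.C_eq_natCast, map_natCast]
  rw [binR, h1, ← map_mul, ← mul_assoc, ← Polynomial.C_mul, mul_inv_cancel₀ hk, Polynomial.C_1,
    one_mul]

theorem affP_desc (k : ℕ) :
    affP 1 1 (descPochhammer E (k + 1)) = (Polynomial.X + 1) * descPochhammer E k := by
  have h1 : ∀ g : E[X], affP 1 1 g = g.comp (Polynomial.X + 1) := by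
    intro g
    change g.comp (Polynomial.C 1 * Polynomial.X + Polynomial.C 1) = _
    rw [Polynomial.C_1, one_mul]
  rw [h1, descPochhammer_succ_left, Polynomial.mul_comp, Polynomial.X_comp, Polynomial.comp_assoc]
  simp

end J_SIG

open J_SIG

theorem sig_thm (ios : IOSStmt) : Corner.SIGStmt := by
  intro n E _ _ K L l t g N hL
  constructor
  · unfold Corner.Ainf
    by_cases h : (L : ℤ) + l ≤ N + 1
    · have h' : ((L + 1 : ℕ) : ℤ) + l ≤ N + 1 + 1 := by push_cast; omega
      have e1 : N + 1 + 1 - ((L + 1 : ℕ) : ℤ) - l = N + 1 - L - l := by push_cast; ring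
      rw [if_pos h, if_pos h', e1, mul_assoc (SigP n E ^ K.D), mul_assoc (SigP n E ^ K.D),
        io_pow ios]
      have hN : 0 ≤ N := by omega
      have e2 : (N + 1).toNat = N.toNat + 1 := by omega
      have e3 : ((N + 1 : ℤ) : E) = ((N.toNat + 1 : ℕ) : E) := by
        have : N + 1 = ((N.toNat + 1 : ℕ) : ℤ) := by push_cast; omega
        rw [this, Int.cast_natCast]
      rw [e2, e3, Nat.factorial_succ]
      push_cast
      ring
    · have h' : ¬ (((L + 1 : ℕ) : ℤ) + l ≤ N + 1 + 1) := by push_cast; omega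
      rw [if_neg h, if_neg h', mul_zero]
  · unfold Corner.rr
    have hk : L + 1 + l - 1 = (L + l - 1) + 1 := by omega
    have hS : (∑ j ∈ Finset.range (t + 1), binR E j *
        Mell K.μ (zc (SigP n E ^ K.D * g * Corner.fer n K.D E ^ l) * (K.w ^ j).coeff t)) =
        ∑ j ∈ Finset.range (t + 1), binR E j *
        Mell K.μ (zc (g * Corner.fer n K.D E ^ l) * (K.w ^ j).coeff t) := by
      have : zc (SigP n E ^ K.D * g * Corner.fer n K.D E ^ l) = zc (g * Corner.fer n K.D E ^ l) := by
        rw [mul_assoc, map_mul, map_pow, zc_sig, one_pow, one_mul]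
      rw [this]
    rw [hS]
    generalize (∑ j ∈ Finset.range (t + 1), binR E j *
        Mell K.μ (zc (g * Corner.fer n K.D E ^ l) * (K.w ^ j).coeff t)) = S
    have hv : (1 : E) + (1 - ((L + 1 : ℕ) : E) - (l : E)) = 1 - (L : E) - (l : E) := by
      push_cast; ring
    rw [map_mul, map_mul, map_mul, affR_affR, hv, map_pow, map_neg, map_one, map_div₀,
      map_natCast, map_natCast, hk]
    have h1 : (((L + l - 1 + 1).factorial : ℕ) : RatFunc E) *
        affR 1 1 one_ne_zero (binR E (L + l - 1 + 1)) =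
        (RatFunc.X + 1) * ((((L + l - 1).factorial : ℕ) : RatFunc E) * binR E (L + l - 1)) := by
      rw [fact_binR, ← map_natCast (affR (1 : E) 1 one_ne_zero) ((L + l - 1 + 1).factorial),
        ← map_mul, fact_binR, affR_algebraMap, affP_desc, map_mul, map_add, map_one,
        RatFunc.algebraMap_X]
    linear_combination ((-1) ^ l / ((l.factorial : ℕ) : RatFunc E) *
      affR 1 (1 - (L : E) - (l : E)) one_ne_zero S) * h1

end Pool.CUBE
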